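import Mathlib

set_option autoImplicit false

namespace SphConj823

open Metric Topology Filter

noncomputable section

/-- Euclidean 3-space. -/
abbrev E : Type := EuclideanSpace ℝ (Fin 3)

/-- The 2-sphere `S²`, as the unit sphere of Euclidean 3-space. -/
abbrev S2 : Type := Metric.sphere (0 : E) 1

/-- `Homeo(S²)` as a subset of the space `C(S², S²)` of continuous maps, which carries the
compact-open topology. -/
def homeoSet : Set C(S2, S2) := {f | ∃ h : S2 ≃ₜ S2, ∀ x, f x = h x}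

/-- A homeomorphism of `S²` seen as an element of `C(S², S²)`. -/
def toCM (h : S2 ≃ₜ S2) : C(S2, S2) := ⟨h, h.continuous⟩

/-- The component of the identity in `Homeo(S²)` (compact-open topology): the homeomorphisms that
can be joined to the identity by a path of homeomorphisms. -/
def G : Set (S2 ≃ₜ S2) := {h | JoinedIn homeoSet (ContinuousMap.id S2) (toCM h)}

/-- The property `P(n)`: for all `A, B ∈ G` different from the identity there are
`H₁, …, Hₙ ∈ Homeo(S²)` with `B = (H₁ A H₁⁻¹) ⋯ (Hₙ A Hₙ⁻¹)`. -/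
def P (n : ℕ) : Prop :=
  ∀ A B : S2 ≃ₜ S2, A ∈ G → B ∈ G → A ≠ 1 → B ≠ 1 →
    ∃ H : Fin n → (S2 ≃ₜ S2), B = (List.ofFn fun i => H i * A * (H i)⁻¹).prod

/-! ### Linear maps acting on the sphere -/

/-- the block linear map -/
def T (a c s : ℝ) (v : E) : E := !₂[a * v 0, c * v 1 - s * v 2, s * v 1 + c * v 2]

@[simp] lemma T_0 (a c s : ℝ) (v : E) : T a c s v 0 = a * v 0 := rfl
@[simp] lemma T_1 (a c s : ℝ) (v : E) : T a c s v 1 = c * v 1 - s * v 2 := rfl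
@[simp] lemma T_2 (a c s : ℝ) (v : E) : T a c s v 2 = s * v 1 + c * v 2 := rfl

lemma E_ext {u v : E} (h0 : u 0 = v 0) (h1 : u 1 = v 1) (h2 : u 2 = v 2) : u = v := by
  ext i; fin_cases i <;> assumption

lemma norm_sq (v : E) : ‖v‖ ^ 2 = v 0 ^ 2 + v 1 ^ 2 + v 2 ^ 2 := by
  rw [EuclideanSpace.norm_sq_eq, Fin.sum_univ_three]
  simp [Real.norm_eq_abs, sq_abs]

lemma T_smul (a c s r : ℝ) (v : E) : T a c s (r • v) = r • T a c s v := by
  apply E_ext <;> simp <;> ring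

lemma T_T (a c s a' c' s' : ℝ) (v : E) :
    T a' c' s' (T a c s v) = T (a' * a) (c' * c - s' * s) (s' * c + c' * s) v := by
  apply E_ext <;> simp <;> ring

lemma T_one (v : E) : T 1 1 0 v = v := by
  apply E_ext <;> simp

lemma T_inv {a c s : ℝ} (ha : a ≠ 0) (h : c ^ 2 + s ^ 2 ≠ 0) (v : E) :
    T a⁻¹ (c / (c ^ 2 + s ^ 2)) (-s / (c ^ 2 + s ^ 2)) (T a c s v) = v := by
  rw [T_T]
  have e1 : a⁻¹ * a = 1 := inv_mul_cancel₀ ha
  have e2 : c / (c ^ 2 + s ^ 2) * c - -s / (c ^ 2 + s ^ 2) * s = 1 := by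
    field_simp; ring
  have e3 : -s / (c ^ 2 + s ^ 2) * c + c / (c ^ 2 + s ^ 2) * s = 0 := by
    field_simp; ring
  rw [e1, e2, e3, T_one]

lemma T_inv' {a c s : ℝ} (ha : a ≠ 0) (h : c ^ 2 + s ^ 2 ≠ 0) (v : E) :
    T a c s (T a⁻¹ (c / (c ^ 2 + s ^ 2)) (-s / (c ^ 2 + s ^ 2)) v) = v := by
  rw [T_T]
  have e1 : a * a⁻¹ = 1 := mul_inv_cancel₀ ha
  have e2 : c * (c / (c ^ 2 + s ^ 2)) - s * (-s / (c ^ 2 + s ^ 2)) = 1 := by
    field_simp; ring
  have e3 : s * (c / (c ^ 2 + s ^ 2)) + c * (-s / (c ^ 2 + s ^ 2)) = 0 := by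
    field_simp; ring
  rw [e1, e2, e3, T_one]

lemma T_zero (a c s : ℝ) : T a c s 0 = 0 := by
  apply E_ext <;> simp

lemma T_ne_zero {a c s : ℝ} (ha : a ≠ 0) (h : c ^ 2 + s ^ 2 ≠ 0) {v : E} (hv : v ≠ 0) :
    T a c s v ≠ 0 := by
  intro h0
  apply hv
  rw [← T_inv ha h v, h0, T_zero]

lemma S2_ne_zero (v : S2) : (v : E) ≠ 0 := by
  intro h
  have := v.2
  rw [mem_sphere_zero_iff_norm, h, norm_zero] at this
  exact zero_ne_one this

lemma S2_norm (v : S2) : ‖(v : E)‖ = 1 := mem_sphere_zero_iff_norm.mp v.2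

lemma S2_eq (v : S2) : (v : E) 0 ^ 2 + (v : E) 1 ^ 2 + (v : E) 2 ^ 2 = 1 := by
  rw [← norm_sq, S2_norm]; norm_num

/-- normalisation -/
def nrm (u : E) (hu : u ≠ 0) : S2 :=
  ⟨‖u‖⁻¹ • u, by
    rw [mem_sphere_zero_iff_norm, norm_smul, norm_inv, norm_norm,
      inv_mul_cancel₀ (norm_ne_zero_iff.mpr hu)]⟩

lemma nrm_congr {u w : E} (h : u = w) (hu : u ≠ 0) (hw : w ≠ 0) : nrm u hu = nrm w hw := by
  subst h; rfl

lemma nrm_self (v : S2) : nrm v (S2_ne_zero v) = v := by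
  apply Subtype.ext
  show ‖(v : E)‖⁻¹ • (v : E) = v
  rw [S2_norm]; simp

lemma nrm_smul {r : ℝ} (hr : 0 < r) {u : E} (hu : u ≠ 0) (hru : r • u ≠ 0) :
    nrm (r • u) hru = nrm u hu := by
  apply Subtype.ext
  show ‖r • u‖⁻¹ • (r • u) = ‖u‖⁻¹ • u
  rw [norm_smul, Real.norm_of_nonneg hr.le, smul_smul]
  congr 1
  have : ‖u‖ ≠ 0 := norm_ne_zero_iff.mpr hu
  field_simp

/-- the action of `T a c s` on the sphere -/
def act (a c s : ℝ) (ha : a ≠ 0) (h : c ^ 2 + s ^ 2 ≠ 0) (v : S2) : S2 :=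
  nrm (T a c s v) (T_ne_zero ha h (S2_ne_zero v))

lemma act_nrm {a c s : ℝ} (ha : a ≠ 0) (h : c ^ 2 + s ^ 2 ≠ 0) {u : E} (hu : u ≠ 0) :
    act a c s ha h (nrm u hu) = nrm (T a c s u) (T_ne_zero ha h hu) := by
  have hpos : 0 < ‖u‖⁻¹ := inv_pos.mpr (norm_pos_iff.mpr hu)
  have e : T a c s ((nrm u hu : S2) : E) = ‖u‖⁻¹ • T a c s u := T_smul _ _ _ _ _
  unfold act
  rw [nrm_congr e _ (smul_ne_zero hpos.ne' (T_ne_zero ha h hu))]
  exact nrm_smul hpos _ _

lemma inv_ok {c s : ℝ} (h : c ^ 2 + s ^ 2 ≠ 0) :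
    (c / (c ^ 2 + s ^ 2)) ^ 2 + (-s / (c ^ 2 + s ^ 2)) ^ 2 ≠ 0 := by
  have : (c / (c ^ 2 + s ^ 2)) ^ 2 + (-s / (c ^ 2 + s ^ 2)) ^ 2 = (c ^ 2 + s ^ 2)⁻¹ := by
    field_simp
  rw [this]; exact inv_ne_zero h

lemma continuous_act_joint {X : Type*} [TopologicalSpace X] {a c s : X → ℝ} {v : X → S2}
    (hac : Continuous a) (hcc : Continuous c) (hsc : Continuous s) (hvc : Continuous v)
    (ha : ∀ x, a x ≠ 0) (h : ∀ x, c x ^ 2 + s x ^ 2 ≠ 0) :
    Continuous fun x => act (a x) (c x) (s x) (ha x) (h x) (v x) := by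
  have hT : Continuous fun x => T (a x) (c x) (s x) (v x : E) := by
    have hv' : Continuous fun x => (v x : E) := continuous_subtype_val.comp hvc
    have hi : ∀ i : Fin 3, Continuous fun x => (v x : E) i := fun i =>
      (EuclideanSpace.proj (𝕜 := ℝ) i).continuous.comp hv'
    unfold T
    have h0 := hi 0
    have h1 := hi 1
    have h2 := hi 2
    refine (PiLp.continuous_toLp 2 _).comp ?_
    refine continuous_pi ?_
    intro i
    fin_cases i
    · exact hac.mul h0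
    · exact (hcc.mul h1).sub (hsc.mul h2)
    · exact (hsc.mul h1).add (hcc.mul h2)
  have hn : Continuous fun x => ‖T (a x) (c x) (s x) (v x : E)‖⁻¹ := by
    refine (continuous_norm.comp hT).inv₀ ?_
    intro x
    exact norm_ne_zero_iff.mpr (T_ne_zero (ha x) (h x) (S2_ne_zero (v x)))
  exact Continuous.subtype_mk (hn.smul hT) _

/-- the homeomorphism of `S²` induced by `T a c s` -/
def R (a c s : ℝ) (ha : a ≠ 0) (h : c ^ 2 + s ^ 2 ≠ 0) : S2 ≃ₜ S2 where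
  toFun := act a c s ha h
  invFun := act a⁻¹ (c / (c ^ 2 + s ^ 2)) (-s / (c ^ 2 + s ^ 2)) (inv_ne_zero ha) (inv_ok h)
  left_inv := by
    intro v
    show act _ _ _ _ _ (nrm (T a c s v) _) = v
    rw [act_nrm, nrm_congr (T_inv ha h v) _ (S2_ne_zero v), nrm_self]
  right_inv := by
    intro v
    show act _ _ _ _ _ (nrm (T _ _ _ v) _) = v
    rw [act_nrm, nrm_congr (T_inv' ha h v) _ (S2_ne_zero v), nrm_self]
  continuous_toFun := continuous_act_joint continuous_const continuous_const continuous_const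
    continuous_id (fun _ => ha) (fun _ => h)
  continuous_invFun := continuous_act_joint continuous_const continuous_const continuous_const
    continuous_id (fun _ => inv_ne_zero ha) (fun _ => inv_ok h)

lemma R_apply {a c s : ℝ} (ha : a ≠ 0) (h : c ^ 2 + s ^ 2 ≠ 0) (v : S2) :
    R a c s ha h v = nrm (T a c s v) (T_ne_zero ha h (S2_ne_zero v)) := rfl

end

end SphConj823
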