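import Pool.Agent.SphConj823.Final

set_option autoImplicit false

namespace SphereHomeo823

/-- The 2-sphere `S²`, the unit sphere of Euclidean 3-space. -/
def S : Type := Metric.sphere (0 : EuclideanSpace ℝ (Fin 3)) 1

/-- The usual topology of `S²` (the subspace topology). -/
noncomputable instance : TopologicalSpace S :=
  inferInstanceAs (TopologicalSpace (Metric.sphere (0 : EuclideanSpace ℝ (Fin 3)) 1))

/-- `Homeo(S²)`, the group of all homeomorphisms of `S²` under composition. -/
def Homeo : Type := S ≃ₜ S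

noncomputable instance : Group Homeo := inferInstanceAs (Group (S ≃ₜ S))

/-- A homeomorphism of `S²` as a continuous map `S² → S²`. -/
def toCM (h : Homeo) : C(S, S) := ContinuousMap.mk (Homeomorph.toEquiv h) (Homeomorph.continuous h)

/-- `G`: the homeomorphisms of `S²` that can be joined to the identity by a path of
homeomorphisms, for the compact-open topology on `C(S², S²)`. -/
def G : Set Homeo := {h | JoinedIn (Set.range toCM) (toCM 1) (toCM h)}

/-- the conjugate `H A H⁻¹` -/
noncomputable def conj (H A : Homeo) : Homeo := H * A * H⁻¹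

/-- The property `P(n)`: for all `A, B ∈ G` different from the identity there are
`H₁, …, Hₙ ∈ Homeo(S²)` with `B = (H₁ A H₁⁻¹) ⋯ (Hₙ A Hₙ⁻¹)`. -/
def P (n : ℕ) : Prop :=
  ∀ A B : Homeo, A ∈ G → B ∈ G → A ≠ 1 → B ≠ 1 →
    ∃ H : Fin n → Homeo, B = (List.ofFn fun i => conj (H i) A).prod

/-- the rotation by `π`, as an element of `Homeo` -/
noncomputable def a : Homeo := SphConj823.A

/-- the map `v ↦ Lv/‖Lv‖`, `L = diag(2,1,1)`, as an element of `Homeo` -/
noncomputable def b : Homeo := SphConj823.B 2 two_ne_zero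

lemma G_sub (h : SphConj823.S2 ≃ₜ SphConj823.S2) (k : Homeo) (e : k = h)
    (hh : h ∈ SphConj823.G) : k ∈ G := by
  subst e
  obtain ⟨γ, hγ⟩ := hh
  refine ⟨γ, ?_⟩
  intro t
  obtain ⟨k, hk⟩ := hγ t
  refine ⟨k, ?_⟩
  exact (ContinuousMap.ext hk).symm

lemma a_mem : a ∈ G := G_sub _ _ rfl SphConj823.A_mem
lemma b_mem : b ∈ G := G_sub _ _ rfl SphConj823.B_mem
lemma a_ne : a ≠ 1 := SphConj823.A_ne_one
lemma b_ne : b ≠ 1 := SphConj823.B_ne_one
lemma a_sq : a * a = 1 := SphConj823.A_sq
lemma b_no (h : Homeo) : h * b * h⁻¹ ≠ b⁻¹ := fun hh => SphConj823.no_conj h hh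

lemma conj_sq (H : Homeo) : conj H a * conj H a = 1 := by
  unfold conj
  have : (H * a * H⁻¹) * (H * a * H⁻¹) = H * (a * a) * H⁻¹ := by group
  rw [this, a_sq]; group

theorem main : ∀ n : ℕ, 1 ≤ n → P n → 3 ≤ n := by
  intro n hn hP
  by_contra hlt
  push Not at hlt
  obtain ⟨H, hH⟩ := hP a b a_mem b_mem a_ne b_ne
  have h12 : n = 1 ∨ n = 2 := by omega
  rcases h12 with rfl | rfl
  · have h1 : b = conj (H 0) a := by rw [hH]; simp
    apply b_no 1
    rw [one_mul, inv_one, mul_one, eq_inv_iff_mul_eq_one, h1]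
    exact conj_sq _
  · have h1 : b = conj (H 0) a * conj (H 1) a := by rw [hH]; simp [List.ofFn_succ]
    apply b_no (conj (H 0) a)
    rw [h1]
    exact SphConj823.inv_conj _ _ (conj_sq _) (conj_sq _)

end SphereHomeo823
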