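import Pool.Agent.SphConj823.Main

set_option autoImplicit false

namespace SphConj823

open Metric Topology Filter

noncomputable section

lemma tendsto_nrm {ι : Type*} {l : Filter ι} {u : ι → E} {w : E} (hu : ∀ n, u n ≠ 0) (hw : w ≠ 0)
    (h : Tendsto u l (𝓝 w)) :
    Tendsto (fun n => nrm (u n) (hu n)) l (𝓝 (nrm w hw)) := by
  rw [tendsto_subtype_rng]
  have h1 : Tendsto (fun n => ‖u n‖⁻¹) l (𝓝 (‖w‖⁻¹)) :=
    ((continuous_norm.tendsto w).comp h).inv₀ (norm_ne_zero_iff.mpr hw)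
  exact h1.smul h

lemma continuous_T (v : E) : Continuous fun p : ℝ × ℝ × ℝ => T p.1 p.2.1 p.2.2 v := by
  unfold T
  refine (PiLp.continuous_toLp 2 _).comp ?_
  refine continuous_pi ?_
  intro i
  fin_cases i
  · exact continuous_fst.mul continuous_const
  · exact ((continuous_fst.comp continuous_snd).mul continuous_const).sub
      ((continuous_snd.comp continuous_snd).mul continuous_const)
  · exact ((continuous_snd.comp continuous_snd).mul continuous_const).add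
      ((continuous_fst.comp continuous_snd).mul continuous_const)

lemma tendsto_T {ι : Type*} {l : Filter ι} {a c s : ι → ℝ} {a' c' s' : ℝ} (v : E)
    (ha : Tendsto a l (𝓝 a')) (hc : Tendsto c l (𝓝 c')) (hs : Tendsto s l (𝓝 s')) :
    Tendsto (fun n => T (a n) (c n) (s n) v) l (𝓝 (T a' c' s' v)) :=
  ((continuous_T v).tendsto (a', c', s')).comp (ha.prodMk_nhds (hc.prodMk_nhds hs))

lemma half_pow : Tendsto (fun n : ℕ => (2⁻¹ : ℝ) ^ n) atTop (𝓝 0) :=
  tendsto_pow_atTop_nhds_zero_of_lt_one (by norm_num) (by norm_num)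

/-- the attracting point -/
def e₁ : S2 := pt 1 0 0 (by norm_num)

lemma e₁_0 : (e₁ : E) 0 = 1 := by
  unfold e₁; rw [pt_0]; norm_num

lemma tendsto_B (v : S2) (hv : 0 < (v : E) 0) :
    Tendsto (fun n : ℕ => ((B 2 two_ne_zero) ^ n) v) atTop (𝓝 e₁) := by
  have hw : T 1 0 0 (v : E) ≠ 0 := by
    intro h0
    have : T 1 0 0 (v : E) 0 = 0 := by rw [h0]; rfl
    rw [T_0] at this
    linarith
  have hne : ∀ n : ℕ, T 1 ((2⁻¹ : ℝ) ^ n) 0 (v : E) ≠ 0 := fun n =>
    T_ne_zero one_ne_zero (by positivity) (S2_ne_zero v)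
  have e : nrm (T 1 0 0 (v : E)) hw = e₁ := by
    have h1 : T 1 0 0 (v : E) = ((v : E) 0) • (!₂[1, 0, 0] : E) := by
      apply E_ext <;> simp
    have h2 : (!₂[(1 : ℝ), 0, 0] : E) ≠ 0 := vec_ne (by norm_num)
    rw [nrm_congr h1 hw (smul_ne_zero hv.ne' h2), nrm_smul hv h2]
    rfl
  rw [← e]
  have key := tendsto_nrm hne hw (tendsto_T (v : E) tendsto_const_nhds half_pow
    tendsto_const_nhds)
  refine key.congr ?_
  intro n
  rw [B_pow]
  unfold B
  rw [R_apply]
  have h1 : T ((2 : ℝ) ^ n) 1 0 (v : E) = ((2 : ℝ) ^ n) • T 1 ((2⁻¹ : ℝ) ^ n) 0 (v : E) := by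
    have h2 : (2 : ℝ) ^ n * (2⁻¹ : ℝ) ^ n = 1 := by
      rw [← mul_pow]; norm_num
    apply E_ext
    · simp
    · simp only [T_1, PiLp.smul_apply, smul_eq_mul]
      linear_combination (-(v : E) 1) * h2
    · simp only [T_2, PiLp.smul_apply, smul_eq_mul]
      linear_combination (-(v : E) 2) * h2
  have hpos : (0 : ℝ) < 2 ^ n := by positivity
  rw [nrm_congr h1 _ (smul_ne_zero hpos.ne' (hne n)), nrm_smul hpos (hne n)]

lemma tendsto_B_inv (w : S2) (hw : T 0 1 0 (w : E) ≠ 0) :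
    Tendsto (fun n : ℕ => (((B 2 two_ne_zero)⁻¹) ^ n) w) atTop (𝓝 (nrm (T 0 1 0 (w : E)) hw)) := by
  have hne : ∀ n : ℕ, T ((2⁻¹ : ℝ) ^ n) 1 0 (w : E) ≠ 0 := fun n =>
    T_ne_zero (by positivity) pow_ok (S2_ne_zero w)
  have key := tendsto_nrm hne hw (tendsto_T (w : E) half_pow tendsto_const_nhds
    tendsto_const_nhds)
  refine key.congr ?_
  intro n
  rw [B_inv_pow]
  unfold B
  rw [R_apply]

/-- near any point of a curve through an open set there are other points of the curve in it -/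
lemma exists_near {γ : ℝ → S2} (hγ : Continuous γ) {W : Set S2} (hW : IsOpen W)
    (h0 : γ 0 ∈ W) : ∃ s : ℝ, s ≠ 0 ∧ γ s ∈ W := by
  have h1 : ∀ᶠ s in 𝓝 (0 : ℝ), γ s ∈ W := hγ.continuousAt.preimage_mem_nhds (hW.mem_nhds h0)
  have h2 : ∀ᶠ s in 𝓝[≠] (0 : ℝ), γ s ∈ W := eventually_nhdsWithin_of_eventually_nhds h1
  have h3 : ∀ᶠ s in 𝓝[≠] (0 : ℝ), s ≠ 0 := self_mem_nhdsWithin
  obtain ⟨s, hs1, hs2⟩ := (h3.and h2).exists
  exact ⟨s, hs1, hs2⟩

/-- `B` is not conjugate to its inverse in `Homeo(S²)`. -/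
theorem no_conj (h : S2 ≃ₜ S2)
    (hh : h * B 2 two_ne_zero * h⁻¹ = (B 2 two_ne_zero)⁻¹) : False := by
  have hn : ∀ (n : ℕ) (v : S2), h (((B 2 two_ne_zero) ^ n) v) =
      (((B 2 two_ne_zero)⁻¹) ^ n) (h v) := by
    intro n v
    have h1 : h * (B 2 two_ne_zero) ^ n = ((B 2 two_ne_zero)⁻¹) ^ n * h := by
      rw [← hh, conj_pow]; group
    have h2 := congrArg (fun f : S2 ≃ₜ S2 => f v) h1
    exact h2
  set q : S2 := h e₁ with hq
  set W : Set S2 := {w | 0 < ((h.symm w : S2) : E) 0} with hWdef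
  have hWo : IsOpen W := by
    have hc : Continuous fun w : S2 => ((h.symm w : S2) : E) 0 :=
      (EuclideanSpace.proj (𝕜 := ℝ) (0 : Fin 3)).continuous.comp
        (continuous_subtype_val.comp h.symm.continuous)
    exact isOpen_lt continuous_const hc
  have hqW : q ∈ W := by
    show 0 < ((h.symm (h e₁) : S2) : E) 0
    rw [h.symm_apply_apply, e₁_0]
    exact one_pos
  -- the key identity
  have key : ∀ w ∈ W, ∀ hw : T 0 1 0 (w : E) ≠ 0, q = nrm (T 0 1 0 (w : E)) hw := by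
    intro w hwW hw
    have t1 : Tendsto (fun n : ℕ => h (((B 2 two_ne_zero) ^ n) (h.symm w))) atTop (𝓝 (h e₁)) :=
      (h.continuous.tendsto e₁).comp (tendsto_B (h.symm w) hwW)
    have t2 := tendsto_B_inv w hw
    refine tendsto_nhds_unique t1 (t2.congr ?_)
    intro n
    rw [hn, h.apply_symm_apply]
  have key0 : ∀ w ∈ W, T 0 1 0 (w : E) ≠ 0 → (q : E) 0 = 0 := by
    intro w hwW hw
    have h1 := key w hwW hw
    rw [h1]
    show ‖T 0 1 0 (w : E)‖⁻¹ * (T 0 1 0 (w : E) 0) = 0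
    rw [T_0]; ring
  have hqeq := S2_eq q
  by_cases hq0 : T 0 1 0 (q : E) = 0
  · -- `q = ± e₁`
    have q1 : (q : E) 1 = 0 := by
      have : T 0 1 0 (q : E) 1 = 0 := by rw [hq0]; rfl
      rw [T_1] at this; linarith
    have q2 : (q : E) 2 = 0 := by
      have : T 0 1 0 (q : E) 2 = 0 := by rw [hq0]; rfl
      rw [T_2] at this; linarith
    have q0 : (q : E) 0 ^ 2 = 1 := by rw [q1, q2] at hqeq; linarith
    have hne : ∀ s : ℝ, (!₂[(q : E) 0, s, 0] : E) ≠ 0 := fun s =>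
      vec_ne (by rw [q0]; positivity)
    have hcont : Continuous fun s : ℝ => nrm !₂[(q : E) 0, s, 0] (hne s) := by
      rw [continuous_iff_continuousAt]
      intro s
      refine tendsto_nrm (fun s => hne s) (hne s) ?_
      have : Continuous fun s : ℝ => (!₂[(q : E) 0, s, 0] : E) := by
        refine (PiLp.continuous_toLp 2 _).comp ?_
        refine continuous_pi ?_
        intro i
        fin_cases i
        · exact continuous_const
        · exact continuous_id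
        · exact continuous_const
      exact this.continuousAt
    have h0 : nrm !₂[(q : E) 0, 0, 0] (hne 0) = q := by
      refine (nrm_congr ?_ _ (S2_ne_zero q)).trans (nrm_self q)
      apply E_ext
      · rfl
      · rw [q1]; rfl
      · rw [q2]; rfl
    obtain ⟨s, hs, hsW⟩ := exists_near hcont hWo (by
      show nrm !₂[(q : E) 0, 0, 0] (hne 0) ∈ W
      rw [h0]; exact hqW)
    have hT : T 0 1 0 ((nrm !₂[(q : E) 0, s, 0] (hne s) : S2) : E) ≠ 0 := by
      intro hz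
      have h1 : T 0 1 0 ((nrm !₂[(q : E) 0, s, 0] (hne s) : S2) : E) 1 = 0 := by rw [hz]; rfl
      rw [T_1] at h1
      have h2 : ((nrm !₂[(q : E) 0, s, 0] (hne s) : S2) : E) 1 =
          ‖(!₂[(q : E) 0, s, 0] : E)‖⁻¹ * s := rfl
      rw [h2] at h1
      have h3 : ‖(!₂[(q : E) 0, s, 0] : E)‖⁻¹ * s = 0 := by linarith
      rcases mul_eq_zero.mp h3 with h4 | h4
      · exact (norm_ne_zero_iff.mpr (hne s)) (inv_eq_zero.mp h4)
      · exact hs h4
    have := key0 _ hsW hT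
    rw [this] at q0
    norm_num at q0
  · have q0 : (q : E) 0 = 0 := key0 q hqW hq0
    have hcs : ∀ s : ℝ, (1 : ℝ) ^ 2 + s ^ 2 ≠ 0 := fun s => by positivity
    have hcont : Continuous fun s : ℝ => act 1 1 s one_ne_zero (hcs s) q :=
      continuous_act_joint continuous_const continuous_const continuous_id continuous_const
        (fun _ => one_ne_zero) hcs
    have h0 : act 1 1 0 one_ne_zero (hcs 0) q = q := by
      unfold act
      exact (nrm_congr (T_one _) _ (S2_ne_zero q)).trans (nrm_self q)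
    obtain ⟨s, hs, hsW⟩ := exists_near hcont hWo (by
      show act 1 1 0 one_ne_zero (hcs 0) q ∈ W
      rw [h0]; exact hqW)
    set w : S2 := act 1 1 s one_ne_zero (hcs s) q with hw
    have hw0 : (w : E) 0 = 0 := by
      show ‖T 1 1 s (q : E)‖⁻¹ * (T 1 1 s (q : E) 0) = 0
      rw [T_0, q0]; ring
    have hTw : T 0 1 0 (w : E) = w := by
      apply E_ext
      · rw [T_0, hw0]; ring
      · rw [T_1]; ring
      · rw [T_2]; ring
    have hT : T 0 1 0 (w : E) ≠ 0 := by rw [hTw]; exact S2_ne_zero w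
    have h1 : q = w := by
      rw [key w hsW hT]
      exact (nrm_congr hTw _ (S2_ne_zero w)).trans (nrm_self w)
    set r : ℝ := ‖T 1 1 s (q : E)‖⁻¹ with hr
    have e1 : (q : E) 1 = r * ((q : E) 1 - s * (q : E) 2) := by
      have h2 : (w : E) 1 = r * (T 1 1 s (q : E) 1) := rfl
      rw [T_1] at h2
      rw [← h1] at h2
      linarith
    have e2 : (q : E) 2 = r * (s * (q : E) 1 + (q : E) 2) := by
      have h2 : (w : E) 2 = r * (T 1 1 s (q : E) 2) := rfl
      rw [T_2] at h2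
      rw [← h1] at h2
      linarith
    rw [q0] at hqeq
    have e3 : r = 1 := by
      have : (q : E) 1 ^ 2 + (q : E) 2 ^ 2 = r * ((q : E) 1 ^ 2 + (q : E) 2 ^ 2) := by
        linear_combination (q : E) 1 * e1 + (q : E) 2 * e2
      have h3 : (q : E) 1 ^ 2 + (q : E) 2 ^ 2 = 1 := by linarith
      rw [h3] at this
      linarith
    rw [e3] at e1 e2
    have h4 : s * (q : E) 2 = 0 := by linarith
    have h5 : s * (q : E) 1 = 0 := by linarith
    have h6 : (q : E) 2 = 0 := by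
      rcases mul_eq_zero.mp h4 with h | h
      · exact absurd h hs
      · exact h
    have h7 : (q : E) 1 = 0 := by
      rcases mul_eq_zero.mp h5 with h | h
      · exact absurd h hs
      · exact h
    rw [h6, h7] at hqeq
    norm_num at hqeq

lemma B_ne_one : B 2 two_ne_zero ≠ 1 := by
  intro h
  apply no_conj 1
  rw [h]; simp

lemma A_ne_one : A ≠ 1 := by
  intro h
  have h1 : A (pt 0 1 0 (by norm_num)) = pt 0 1 0 (by norm_num) := by rw [h]; rfl
  unfold A pt at h1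
  rw [R_nrm] at h1
  have h2 := congrArg (fun v : S2 => (v : E) 1) h1
  have h3 : ‖T 1 (-1) 0 (!₂[(0 : ℝ), 1, 0] : E)‖⁻¹ * (T 1 (-1) 0 (!₂[(0 : ℝ), 1, 0] : E) 1) =
      ‖(!₂[(0 : ℝ), 1, 0] : E)‖⁻¹ * 1 := h2
  have h4 : T 1 (-1) 0 (!₂[(0 : ℝ), 1, 0] : E) 1 = -1 := by
    rw [T_1]
    show (-1 : ℝ) * 1 - 0 * 0 = -1
    norm_num
  rw [h4] at h3
  have p1 : 0 < ‖T 1 (-1) 0 (!₂[(0 : ℝ), 1, 0] : E)‖⁻¹ := by
    apply inv_pos.mpr
    apply norm_pos_iff.mpr
    exact T_ne_zero one_ne_zero (by norm_num) (vec_ne (by norm_num))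
  have p2 : 0 < ‖(!₂[(0 : ℝ), 1, 0] : E)‖⁻¹ := by
    apply inv_pos.mpr
    apply norm_pos_iff.mpr
    exact vec_ne (by norm_num)
  linarith

lemma conj_sq (H : S2 ≃ₜ S2) : (H * A * H⁻¹) * (H * A * H⁻¹) = 1 := by
  have : (H * A * H⁻¹) * (H * A * H⁻¹) = H * (A * A) * H⁻¹ := by group
  rw [this, A_sq]; group

theorem not_P_one : ¬ P 1 := by
  intro hP
  obtain ⟨H, hH⟩ := hP A (B 2 two_ne_zero) A_mem B_mem A_ne_one B_ne_one
  have h1 : B 2 two_ne_zero = H 0 * A * (H 0)⁻¹ := by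
    rw [hH]; simp
  apply no_conj 1
  rw [one_mul, inv_one, mul_one, eq_inv_iff_mul_eq_one, h1]
  exact conj_sq (H 0)

lemma inv_conj {K : Type*} [Group K] (f g : K) (hff : f * f = 1) (hgg : g * g = 1) :
    f * (f * g) * f⁻¹ = (f * g)⁻¹ := by
  have hfi : f⁻¹ = f := inv_eq_of_mul_eq_one_left hff
  have hgi : g⁻¹ = g := inv_eq_of_mul_eq_one_left hgg
  rw [mul_inv_rev, hfi, hgi, ← mul_assoc, hff, one_mul]

theorem not_P_two : ¬ P 2 := by
  intro hP
  obtain ⟨H, hH⟩ := hP A (B 2 two_ne_zero) A_mem B_mem A_ne_one B_ne_one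
  have h1 : B 2 two_ne_zero = (H 0 * A * (H 0)⁻¹) * (H 1 * A * (H 1)⁻¹) := by
    rw [hH]; simp [List.ofFn_succ]
  apply no_conj (H 0 * A * (H 0)⁻¹)
  rw [h1]
  exact inv_conj _ _ (conj_sq (H 0)) (conj_sq (H 1))

/-- `N ≥ 3`. -/
theorem main : ∀ n : ℕ, 1 ≤ n → P n → 3 ≤ n := by
  intro n hn hP
  by_contra hlt
  push Not at hlt
  have : n = 1 ∨ n = 2 := by omega
  rcases this with rfl | rfl
  · exact not_P_one hP
  · exact not_P_two hP

end

end SphConj823
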