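import Pool.Agent.SphConj823.Basic

set_option autoImplicit false

namespace SphConj823

open Metric Topology Filter

noncomputable section

/-- a path of block maps starting at the identity gives a path in `Homeo(S²)`. -/
lemma mem_G_of_path (a c s : unitInterval → ℝ) (hac : Continuous a) (hcc : Continuous c)
    (hsc : Continuous s) (ha : ∀ t, a t ≠ 0) (h : ∀ t, c t ^ 2 + s t ^ 2 ≠ 0)
    (a0 : a 0 = 1) (c0 : c 0 = 1) (s0 : s 0 = 0) :
    R (a 1) (c 1) (s 1) (ha 1) (h 1) ∈ G := by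
  have hj : Continuous fun p : unitInterval × S2 =>
      act (a p.1) (c p.1) (s p.1) (ha p.1) (h p.1) p.2 :=
    continuous_act_joint (hac.comp continuous_fst) (hcc.comp continuous_fst)
      (hsc.comp continuous_fst) continuous_snd (fun p => ha p.1) (fun p => h p.1)
  let F : C(unitInterval × S2, S2) := ⟨_, hj⟩
  refine ⟨⟨F.curry, ?_, ?_⟩, ?_⟩
  · ext1 v
    show act (a 0) (c 0) (s 0) (ha 0) (h 0) v = v
    unfold act
    rw [nrm_congr (u := T (a 0) (c 0) (s 0) v) (w := v) (by rw [a0, c0, s0, T_one]) _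
      (S2_ne_zero v), nrm_self]
  · ext1 v
    rfl
  · intro t
    exact ⟨R (a t) (c t) (s t) (ha t) (h t), fun v => rfl⟩

/-! ### the two homeomorphisms -/

lemma R_nrm {a c s : ℝ} (ha : a ≠ 0) (h : c ^ 2 + s ^ 2 ≠ 0) {u : E} (hu : u ≠ 0) :
    R a c s ha h (nrm u hu) = nrm (T a c s u) (T_ne_zero ha h hu) := act_nrm ha h hu

/-- the rotation by `π` about the first axis -/
def A : S2 ≃ₜ S2 := R 1 (-1) 0 one_ne_zero (by norm_num)

lemma pow_ok : (1 : ℝ) ^ 2 + (0 : ℝ) ^ 2 ≠ 0 := by norm_num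

/-- the stretching maps -/
def B (a : ℝ) (ha : a ≠ 0) : S2 ≃ₜ S2 := R a 1 0 ha pow_ok

lemma A_mem : A ∈ G := by
  have key := mem_G_of_path (fun _ => 1) (fun t => 1 - 2 * (t : ℝ)) (fun t => (t : ℝ) * (1 - t))
    continuous_const (by fun_prop) (by fun_prop) (fun _ => one_ne_zero)
    (by
      intro t
      have h1 : 0 ≤ (1 - 2 * (t : ℝ)) ^ 2 := sq_nonneg _
      have h2 : 0 ≤ ((t : ℝ) * (1 - t)) ^ 2 := sq_nonneg _
      intro h0
      have h3 : (1 - 2 * (t : ℝ)) ^ 2 = 0 := by linarith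
      have h4 : ((t : ℝ) * (1 - t)) ^ 2 = 0 := by linarith
      have h5 : 1 - 2 * (t : ℝ) = 0 := by simpa using h3
      have h6 : (t : ℝ) = 1 / 2 := by linarith
      rw [h6] at h4
      norm_num at h4)
    rfl (by simp) (by simp)
  have e : R ((fun _ : unitInterval => (1 : ℝ)) 1) ((fun t : unitInterval => 1 - 2 * (t : ℝ)) 1)
      ((fun t : unitInterval => (t : ℝ) * (1 - t)) 1) one_ne_zero (by norm_num) = A := by
    apply Homeomorph.ext
    intro v
    unfold A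
    rw [R_apply, R_apply]
    apply nrm_congr
    norm_num
  rw [← e]
  exact key

lemma B_mem : B 2 two_ne_zero ∈ G := by
  have key := mem_G_of_path (fun t => 1 + (t : ℝ)) (fun _ => 1) (fun _ => 0)
    (by fun_prop) continuous_const continuous_const
    (by
      intro t
      have := t.2.1
      positivity)
    (fun _ => pow_ok) (by simp) rfl rfl
  have e : R ((fun t : unitInterval => 1 + (t : ℝ)) 1) ((fun _ : unitInterval => (1 : ℝ)) 1)
      ((fun _ : unitInterval => (0 : ℝ)) 1) (by norm_num) pow_ok = B 2 two_ne_zero := by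
    apply Homeomorph.ext
    intro v
    unfold B
    rw [R_apply, R_apply]
    apply nrm_congr
    norm_num
  rw [← e]
  exact key

lemma A_sq : A * A = 1 := by
  apply Homeomorph.ext
  intro v
  rw [Homeomorph.mul_apply, Homeomorph.one_apply]
  unfold A
  rw [R_apply _ _ v, R_nrm]
  refine (nrm_congr ?_ _ (S2_ne_zero v)).trans (nrm_self v)
  rw [T_T]
  norm_num
  exact T_one v

/-- a point of the sphere from coordinates -/
lemma vec_ne {x y z : ℝ} (h : x ^ 2 + y ^ 2 + z ^ 2 ≠ 0) : (!₂[x, y, z] : E) ≠ 0 := by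
  intro h0
  apply h
  have h1 : (!₂[x, y, z] : E) 0 = 0 := by rw [h0]; rfl
  have h2 : (!₂[x, y, z] : E) 1 = 0 := by rw [h0]; rfl
  have h3 : (!₂[x, y, z] : E) 2 = 0 := by rw [h0]; rfl
  have h1' : x = 0 := h1
  have h2' : y = 0 := h2
  have h3' : z = 0 := h3
  rw [h1', h2', h3']; norm_num

/-- normalised point -/
def pt (x y z : ℝ) (h : x ^ 2 + y ^ 2 + z ^ 2 ≠ 0) : S2 := nrm !₂[x, y, z] (vec_ne h)

lemma pt_congr {x y z x' y' z' : ℝ} (h : x ^ 2 + y ^ 2 + z ^ 2 ≠ 0)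
    (h' : x' ^ 2 + y' ^ 2 + z' ^ 2 ≠ 0) (e1 : x = x') (e2 : y = y') (e3 : z = z') :
    pt x y z h = pt x' y' z' h' := by
  subst e1 e2 e3; rfl

lemma vec_norm (x y z : ℝ) : ‖(!₂[x, y, z] : E)‖ = Real.sqrt (x ^ 2 + y ^ 2 + z ^ 2) := by
  rw [EuclideanSpace.norm_eq, Fin.sum_univ_three]
  simp [Real.norm_eq_abs, sq_abs]

lemma pt_0 {x y z : ℝ} (h : x ^ 2 + y ^ 2 + z ^ 2 ≠ 0) :
    (pt x y z h : E) 0 = (Real.sqrt (x ^ 2 + y ^ 2 + z ^ 2))⁻¹ * x := by
  show ‖(!₂[x, y, z] : E)‖⁻¹ * x = _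
  rw [vec_norm]

lemma pt_1 {x y z : ℝ} (h : x ^ 2 + y ^ 2 + z ^ 2 ≠ 0) :
    (pt x y z h : E) 1 = (Real.sqrt (x ^ 2 + y ^ 2 + z ^ 2))⁻¹ * y := by
  show ‖(!₂[x, y, z] : E)‖⁻¹ * y = _
  rw [vec_norm]

lemma pt_2 {x y z : ℝ} (h : x ^ 2 + y ^ 2 + z ^ 2 ≠ 0) :
    (pt x y z h : E) 2 = (Real.sqrt (x ^ 2 + y ^ 2 + z ^ 2))⁻¹ * z := by
  show ‖(!₂[x, y, z] : E)‖⁻¹ * z = _
  rw [vec_norm]

lemma B_pow (n : ℕ) (v : S2) :
    ((B 2 two_ne_zero) ^ n) v = B (2 ^ n) (by positivity) v := by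
  induction n generalizing v with
  | zero =>
    unfold B
    rw [pow_zero, Homeomorph.one_apply, R_apply]
    refine (nrm_self v).symm.trans (nrm_congr ?_ _ _)
    rw [pow_zero, T_one]
  | succ n ih =>
    rw [pow_succ, Homeomorph.mul_apply, ih]
    unfold B
    rw [R_apply _ _ v, R_nrm, R_apply]
    apply nrm_congr
    rw [T_T]
    apply E_ext <;> simp [pow_succ]

/-- the inverse of the stretching map -/
lemma B_inv_apply (v : S2) :
    (B 2 two_ne_zero)⁻¹ v = B (2⁻¹) (by norm_num) v := by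
  show nrm (T (2⁻¹) (1 / (1 ^ 2 + 0 ^ 2)) (-0 / (1 ^ 2 + 0 ^ 2)) v)
    (T_ne_zero (inv_ne_zero two_ne_zero) (inv_ok pow_ok) (S2_ne_zero v)) =
    nrm (T (2⁻¹) 1 0 v) (T_ne_zero (by norm_num) pow_ok (S2_ne_zero v))
  apply nrm_congr
  norm_num

lemma B_inv_pow (n : ℕ) (v : S2) :
    (((B 2 two_ne_zero)⁻¹) ^ n) v = B ((2⁻¹ : ℝ) ^ n) (by positivity) v := by
  induction n generalizing v with
  | zero =>
    unfold B
    rw [pow_zero, Homeomorph.one_apply, R_apply]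
    refine (nrm_self v).symm.trans (nrm_congr ?_ _ _)
    rw [pow_zero, T_one]
  | succ n ih =>
    rw [pow_succ, Homeomorph.mul_apply, ih, B_inv_apply]
    unfold B
    rw [R_apply _ _ v, R_nrm, R_apply]
    apply nrm_congr
    rw [T_T]
    apply E_ext <;> simp [pow_succ]

end

end SphConj823
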